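import Pool.Agent.Q248.RL.Stm3

set_option autoImplicit false

/-!
# Growth of the quotient from the absence of zeros
-/

namespace Pool.Agent.Q176.RL

open Complex Set Finset Topology Pool.Agent.Y813.RL Pool.Agent.Q248.RL

noncomputable section

variable {G : Matrix (Fin 20) (Fin 20) ℤ} {k : ℤ} {F : TP → ℂ}
  {φ : ℕ → ℂ × (Fin 20 → ℂ) → ℂ} {C m : ℕ}

/-- the estimate for the quotient. -/
theorem quot (hBC : JobBC) (H : CM G k F φ C m)
    {p : ℂ × (Fin 20 → ℂ)} (hp : p ∈ UP) (h0 : φ C p ≠ 0)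
    {v M : ℝ} (hb : bh G p < v) (hnz : ∀ ω : ℂ, v < ω.im → F (ω, p) ≠ 0)
    (hM1 : 1 ≤ M) (hM : ∀ ω : ℂ, ω.im = v → ‖F (ω, p)‖ ≤ M) :
    ‖φ (C + m) p‖ ≤ 2 * (1 + |Real.log (M * Real.exp (2 * Real.pi * v * C))| +
      |Real.log ‖φ C p‖|) * (2 / Real.exp (-(2 * Real.pi * v))) ^ m * ‖φ C p‖ := by
  set R := Real.exp (-(2 * Real.pi * v)) with hR
  have hR0 : 0 < R := Real.exp_pos _
  have hRR : R < Real.exp (-(2 * Real.pi * bh G p)) := by
    rw [hR, Real.exp_lt_exp]
    have := Real.pi_pos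
    nlinarith
  set x := M * Real.exp (2 * Real.pi * v * C) with hx
  have hx0 : 0 ≤ x := by positivity
  have hφ0 : 0 < ‖φ C p‖ := norm_pos_iff.2 h0
  have le_exp_abs_log : ∀ y : ℝ, 0 ≤ y → y ≤ Real.exp |Real.log y| := by
    intro y hy
    rcases eq_or_lt_of_le hy with h1 | h1
    · rw [← h1]; positivity
    · calc y = Real.exp (Real.log y) := (Real.exp_log h1).symm
        _ ≤ _ := Real.exp_le_exp.2 (le_abs_self _)
  have hinv : ‖φ C p‖⁻¹ ≤ Real.exp |Real.log ‖φ C p‖| := by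
    have := le_exp_abs_log (‖φ C p‖⁻¹) (by positivity)
    rwa [Real.log_inv, abs_neg] at this
  set M' := 1 + |Real.log x| + |Real.log ‖φ C p‖| with hM'def
  have hM'0 : 0 < M' := by positivity
  have hbound : ∀ s ∈ Metric.ball (0 : ℂ) R, ‖gp φ C m p s‖ ≤ Real.exp M' := by
    intro s hs
    rw [Metric.mem_ball, dist_zero_right] at hs
    refine (H.gp_bound hp h0 hb hM hs.le).trans ?_
    rw [← hx, div_eq_mul_inv]
    calc x * ‖φ C p‖⁻¹ ≤ Real.exp |Real.log x| * Real.exp |Real.log ‖φ C p‖| := by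
          gcongr
          exact le_exp_abs_log x hx0
      _ = Real.exp (|Real.log x| + |Real.log ‖φ C p‖|) := by rw [Real.exp_add]
      _ ≤ Real.exp M' := Real.exp_le_exp.2 (by rw [hM'def]; linarith)
  have hgne : ∀ s ∈ Metric.ball (0 : ℂ) R, gp φ C m p s ≠ 0 := by
    intro s hs
    rw [Metric.mem_ball, dist_zero_right] at hs
    by_cases hs0 : s = 0
    · rw [hs0]
      simp [gp, H.hm.ne']
    · obtain ⟨ω, hω, him⟩ := exists_ee hs0
      have hvω : v < ω.im := by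
        rw [him, lt_div_iff₀ (by positivity)]
        have := Real.log_lt_log (norm_pos_iff.2 hs0) hs
        rw [hR, Real.log_exp] at this
        linarith
      rw [← hω, H.gp_eq hp h0 (hb.trans hvω)]
      exact div_ne_zero (mul_ne_zero (hnz ω hvω) (ee_ne_zero _)) h0
  have hHd := H.Hs_diff hp
  have hcont : ContinuousAt (fun s => Hs φ C m p s / φ C p) 0 := by
    have : DifferentiableAt ℂ (Hs φ C m p) 0 :=
      hHd.differentiableAt (Metric.isOpen_ball.mem_nhds (Metric.mem_ball_self (Real.exp_pos _)))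
    exact (this.div_const _).continuousAt
  have key := hBC m R M' (gp φ C m p) (fun s => Hs φ C m p s / φ C p) H.hm hR0 hM'0
    ((H.gp_diff hp).mono (Metric.ball_subset_ball hRR.le)) hcont (fun s _ => rfl) hgne hbound
  simp only [Hs_zero, norm_div] at key
  rw [div_le_iff₀ hφ0] at key
  exact key

/-- bound for the coefficients. -/
theorem coeff_le (H : CM G k F φ C m) {p : ℂ × (Fin 20 → ℂ)} (hp : p ∈ UP)
    {v M : ℝ} (hb : bh G p < v) (hM : ∀ ω : ℂ, ω.im = v → ‖F (ω, p)‖ ≤ M) (j : ℕ) :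
    ‖φ j p‖ ≤ M * Real.exp (2 * Real.pi * v * j) := by
  rw [H.fd.coeff j p v hp hb]
  have h1 : ∀ u ∈ Set.uIoc (0 : ℝ) 1, ‖F ((u : ℂ) + (v : ℂ) * Complex.I, p) *
      ee (-(j * ((u : ℂ) + (v : ℂ) * Complex.I)))‖ ≤ M * Real.exp (2 * Real.pi * v * j) := by
    intro u _
    rw [norm_mul, norm_ee]
    have h2 : (-((j : ℂ) * ((u : ℂ) + (v : ℂ) * Complex.I))).im = -(j * v) := by
      simp [Complex.mul_im]
    rw [h2]
    have h3 : -(2 * Real.pi * -(j * v)) = 2 * Real.pi * v * j := by ring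
    rw [h3]
    exact mul_le_mul_of_nonneg_right (hM _ (by simp)) (Real.exp_pos _).le
  have := intervalIntegral.norm_integral_le_of_norm_le_const h1
  simpa using this

theorem imv_sl (x y : Fin 20 → ℝ) (τ : ℂ) : imv (sl x y τ).2 = τ.im • x := by
  funext i
  simp [imv, sl]

theorem xp_sl (x y : Fin 20 → ℝ) {τ : ℂ} (hτ : 0 < τ.im) : xp (sl x y τ) = x := by
  unfold xp
  rw [imv_sl]
  have : (sl x y τ).1.im = τ.im := rfl
  rw [this, smul_smul, inv_mul_cancel₀ hτ.ne', one_smul]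

theorem law_T_nat (H : CM G k F φ C m) (j n : ℕ) {τ : ℂ} (z : Fin 20 → ℂ) (hτ : 0 < τ.im) :
    φ j (τ + n, z) = φ j (τ, z) := by
  induction n with
  | zero => simp
  | succ n ih =>
    have h1 : 0 < (τ + n).im := by simpa using hτ
    have := law_T H.tf H.fd j z h1
    rw [← ih, ← this]
    push_cast
    rw [add_assoc]

theorem gr (hBC : JobBC) (hKD : JobKD) : S_GR := by
  intro G k F φ C m c hG H hc X N y θ hN hθ hZF hMir
  obtain ⟨T₀, hT₀⟩ := hZF
  have hN' : (0 : ℝ) < N := by exact_mod_cast hN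
  set q := bf G (xr X N) (xr X N) with hq
  have hq0 : 0 ≤ q := hG.nonneg _
  obtain ⟨M₀, hM₀⟩ := bound_slice hKD hG H.tf X hN hθ
  set M := max M₀ 1 with hMdef
  have hM1 : 1 ≤ M := le_max_right _ _
  have hpi := Real.pi_pos
  set s := θ + q / 2 with hs
  have hs0 : 0 < s := by positivity
  have hpUP : ∀ τ : ℂ, 0 < τ.im → sl (xr X N) y τ ∈ UP := fun τ hτ => hτ
  have hbh : ∀ τ : ℂ, 0 < τ.im → bh G (sl (xr X N) y τ) < τ.im * s := by
    intro τ hτ
    rw [bh_eq (hpUP τ hτ), xp_sl _ _ hτ]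
    have : (sl (xr X N) y τ).1.im = τ.im := rfl
    rw [this, ← hq, hs]
    nlinarith
  have hFM : ∀ τ : ℂ, 1 ≤ τ.im → ∀ ω : ℂ, ω.im = τ.im * s →
      ‖F (ω, sl (xr X N) y τ)‖ ≤ M := by
    intro τ hτ ω hω
    refine (hM₀ (ω, sl (xr X N) y τ) hτ (imv_sl _ _ _) ?_).trans (le_max_left _ _)
    change (θ + q / 2) * τ.im ≤ ω.im
    rw [hω, hs]
    linarith
  have hup : ∀ τ : ℂ, 1 ≤ τ.im → ‖φ C (sl (xr X N) y τ)‖ ≤
      M * Real.exp (2 * Real.pi * (τ.im * s) * C) := fun τ hτ =>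
    coeff_le H (hpUP τ (by linarith)) (hbh τ (by linarith)) (hFM τ hτ) C
  have hne : ∀ τ : ℂ, 0 < τ.im → φ C (sl (xr X N) y τ) ≠ 0 := fun τ hτ =>
    leading_ne_zero hG H.tf H.fd H.hC H.hne (hpUP τ hτ) (hMir τ hτ)
  -- lower bound
  set f : ℂ → ℂ := fun t => φ C (sl (xr X N) y (N * t)) with hf
  have him : ∀ t : ℂ, ((N : ℂ) * t).im = N * t.im := by
    intro t
    rw [Complex.mul_im]; simp
  have hHP : Pool.Agent.Y683.RL.HP 0 f := by
    refine ⟨?_, ?_⟩
    · refine (H.fd.holo C).comp ?_ ?_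
      · unfold sl
        fun_prop
      · intro t ht
        have ht' : 0 < t.im := ht
        change 0 < ((N : ℂ) * t).im
        rw [him]
        positivity
    · intro t ht
      have ht' : 0 < ((N : ℂ) * t).im := by
        rw [him]; positivity
      have e1 : sl (xr X N) y (N * (t + 1)) =
          (((N : ℂ) * t + (N : ℕ)), fun i => (((N : ℂ) * t) * ((xr X N i : ℝ) : ℂ) + (y i : ℂ)) +
            (X i : ℂ)) := by
        refine Prod.ext ?_ ?_
        · simp only [sl]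
          ring
        · funext i
          simp only [sl, xr]
          push_cast
          have : (N : ℂ) ≠ 0 := by exact_mod_cast hN.ne'
          field_simp
          ring
      change φ C (sl (xr X N) y (N * (t + 1))) = φ C (sl (xr X N) y (N * t))
      rw [e1, law_T_nat H C N _ ht', law_z H.tf H.fd C _ X ht']
      rfl
  obtain ⟨c₁, a', T₁, hc₁, hlow⟩ := per_lower hHP
    (M := M) (a := 2 * Real.pi * (N * s) * C)
    ⟨Complex.I, by simp, hne _ (by rw [him]; simpa using hN)⟩ (by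
      intro t ht
      have h1 : 1 ≤ ((N : ℂ) * t).im := by
        rw [him]
        have : (1 : ℝ) ≤ N := by exact_mod_cast hN
        nlinarith
      refine (hup _ h1).trans (le_of_eq ?_)
      rw [him]
      congr 2
      ring)
  have hlow2 : ∀ τ : ℂ, N * T₁ ≤ τ.im →
      c₁ * Real.exp (-(a' / N * τ.im)) ≤ ‖φ C (sl (xr X N) y τ)‖ := by
    intro τ hτ
    have h1 : (τ / N).im = τ.im / N := by
      rw [← Complex.ofReal_natCast, Complex.div_ofReal_im]
    have h2 : T₁ ≤ (τ / N).im := by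
      rw [h1, le_div_iff₀ hN']
      linarith
    have h3 := hlow _ h2
    have h4 : f (τ / N) = φ C (sl (xr X N) y τ) := by
      simp only [hf]
      rw [mul_div_cancel₀]
      exact_mod_cast hN.ne'
    rw [h4, h1] at h3
    convert h3 using 3
    ring
  -- logarithm
  set K₁ := Real.log M + 2 * Real.pi * s * C with hK₁
  set K₂ := |Real.log c₁| + |a' / N| with hK₂
  have hK₁0 : 0 ≤ K₁ := by
    have := Real.log_nonneg hM1
    positivity
  have hK₂0 : 0 ≤ K₂ := by positivity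
  refine ⟨2 * (1 + K₁ + (K₁ + K₂)) * 2 ^ m, max (max T₀ 1) (N * T₁), fun τ hτ => ?_⟩
  have hτ0 : T₀ ≤ τ.im := ((le_max_left _ _).trans (le_max_left _ _)).trans hτ
  have hτ1 : 1 ≤ τ.im := ((le_max_right _ _).trans (le_max_left _ _)).trans hτ
  have hτN : N * T₁ ≤ τ.im := (le_max_right _ _).trans hτ
  have hτp : 0 < τ.im := by linarith
  have hφ0 : 0 < ‖φ C (sl (xr X N) y τ)‖ := norm_pos_iff.2 (hne τ hτp)
  have hlogx : Real.log (M * Real.exp (2 * Real.pi * (τ.im * s) * C)) ≤ K₁ * (1 + τ.im) := by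
    rw [Real.log_mul (by linarith) (Real.exp_pos _).ne', Real.log_exp, hK₁]
    have := Real.log_nonneg hM1
    have h5 : 0 ≤ 2 * Real.pi * s * C := by positivity
    nlinarith
  have hlogx0 : 0 ≤ Real.log (M * Real.exp (2 * Real.pi * (τ.im * s) * C)) := by
    rw [Real.log_mul (by linarith) (Real.exp_pos _).ne', Real.log_exp]
    have := Real.log_nonneg hM1
    positivity
  have hlogφ : |Real.log ‖φ C (sl (xr X N) y τ)‖| ≤ (K₁ + K₂) * (1 + τ.im) := by
    rw [abs_le]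
    constructor
    · have h6 := Real.log_le_log (by positivity) (hlow2 τ hτN)
      rw [Real.log_mul hc₁.ne' (Real.exp_pos _).ne', Real.log_exp] at h6
      have h7 : -|Real.log c₁| ≤ Real.log c₁ := neg_abs_le _
      have h8 : a' / N * τ.im ≤ |a' / N| * τ.im :=
        mul_le_mul_of_nonneg_right (le_abs_self _) hτp.le
      have h9 : 0 ≤ |Real.log c₁| * τ.im := by positivity
      have h10 : 0 ≤ |a' / N| := abs_nonneg _
      have h11 : 0 ≤ K₁ * (1 + τ.im) := by positivity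
      rw [hK₂]
      nlinarith
    · have h6 := Real.log_le_log hφ0 (hup τ hτ1)
      have h11 : 0 ≤ K₂ * (1 + τ.im) := by positivity
      linarith
  have hcτ := hc τ (sl (xr X N) y τ).2 hτp
  have hpe : (τ, (sl (xr X N) y τ).2) = sl (xr X N) y τ := rfl
  rw [hpe] at hcτ
  have hmain := quot hBC H (hpUP τ hτp) (hne τ hτp) (hbh τ hτp)
    (fun ω hω => hT₀ y τ ω hτ0 hω) hM1 (hFM τ hτ1)
  rw [hcτ, norm_mul, mul_comm ‖φ C (sl (xr X N) y τ)‖] at hmain
  have hmain2 := le_of_mul_le_mul_right hmain hφ0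
  refine hmain2.trans ?_
  have e5 : (2 / Real.exp (-(2 * Real.pi * (τ.im * s)))) ^ m =
      2 ^ m * Real.exp (2 * Real.pi * m * s * τ.im) := by
    rw [Real.exp_neg, div_inv_eq_mul, mul_pow, ← Real.exp_nat_mul]
    congr 2
    ring
  rw [e5, abs_of_nonneg hlogx0]
  have h12 : 1 + Real.log (M * Real.exp (2 * Real.pi * (τ.im * s) * C)) +
      |Real.log ‖φ C (sl (xr X N) y τ)‖| ≤ (1 + K₁ + (K₁ + K₂)) * (1 + τ.im) ^ 2 := by
    have h13 : 1 + τ.im ≤ (1 + τ.im) ^ 2 := by nlinarith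
    have h14 : 0 ≤ 1 + K₁ + (K₁ + K₂) := by positivity
    calc _ ≤ (1 + K₁ + (K₁ + K₂)) * (1 + τ.im) := by nlinarith
      _ ≤ _ := mul_le_mul_of_nonneg_left h13 h14
  have h15 : 0 < 2 ^ m * Real.exp (2 * Real.pi * m * s * τ.im) := by positivity
  calc 2 * (1 + Real.log (M * Real.exp (2 * Real.pi * (τ.im * s) * C)) +
        |Real.log ‖φ C (sl (xr X N) y τ)‖|) * (2 ^ m * Real.exp (2 * Real.pi * m * s * τ.im)) ≤
      2 * ((1 + K₁ + (K₁ + K₂)) * (1 + τ.im) ^ 2) *
        (2 ^ m * Real.exp (2 * Real.pi * m * s * τ.im)) := by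
        gcongr
    _ = _ := by ring

end

end Pool.Agent.Q176.RL
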