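import Mathlib
import Pool.Agent.Y813.RL.Stm

set_option autoImplicit false

/-!
The vanishing lemma for vector valued modular forms of negative weight.
-/

open UpperHalfPlane ModularGroup Filter Topology Complex ModularForm
open scoped MatrixGroups ModularForm Modular

namespace Pool.Agent.Q176.RL

open Pool.Agent.Y813.RL

/-- invariance under the two generators gives invariance under the modular group. -/
theorem inv_of_gen {X : Type*} (f : ℍ → X) (hS : ∀ z : ℍ, f (ModularGroup.S • z) = f z)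
    (hT : ∀ z : ℍ, f (ModularGroup.T • z) = f z) (γ : SL(2, ℤ)) (z : ℍ) :
    f (γ • z) = f z := by
  have : γ ∈ Subgroup.closure {ModularGroup.S, ModularGroup.T} := by
    simp [SpecialLinearGroup.SL2Z_generators]
  induction this using Subgroup.closure_induction generalizing z with
  | mem g hg =>
    rcases hg with rfl | rfl
    · exact hS z
    · exact hT z
  | one => rw [one_smul]
  | mul a b _ _ ha hb => rw [mul_smul, ha, hb]
  | inv a _ ha => rw [← ha (a⁻¹ • z), smul_inv_smul]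

theorem norm_disc_S (z : ℍ) : ‖ModularForm.discriminant (ModularGroup.S • z)‖ =
    ‖(z : ℂ)‖ ^ 12 * ‖ModularForm.discriminant z‖ := by
  have h := congrFun discriminant_S_invariant z
  rw [SL_slash_apply, ModularGroup.denom_S] at h
  have hz : (z : ℂ) ≠ 0 := z.ne_zero
  have hn : ‖(z : ℂ)‖ ≠ 0 := by simpa using hz
  rw [← h, norm_mul, norm_zpow, mul_left_comm]
  have : ‖(z : ℂ)‖ ^ 12 * ‖(z : ℂ)‖ ^ (-12 : ℤ) = 1 := by
    rw [zpow_neg]
    exact mul_inv_cancel₀ (pow_ne_zero 12 hn)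
  rw [this, mul_one]

theorem norm_disc_T (z : ℍ) : ‖ModularForm.discriminant (ModularGroup.T • z)‖ =
    ‖ModularForm.discriminant z‖ := by
  have h := congrFun discriminant_T_invariant z
  rw [SL_slash_apply] at h
  have hd : UpperHalfPlane.denom ModularGroup.T z = 1 := by
    rw [ModularGroup.denom_apply]
    simp [ModularGroup.T]
  rw [hd] at h
  rw [← h]
  simp

theorem vv : JobVV := by
  intro ι _ w κ Ψ hκ hΨ hT hS hC
  obtain ⟨C, hC⟩ := hC
  classical
  -- the auxiliary vector function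
  let G : ℂ → EuclideanSpace ℂ ι := fun τ => (ModularForm.eta τ) ^ (2 * w) • WithLp.toLp 2 (Ψ τ)
  let φ : ℍ → ℝ := fun z => ‖ModularForm.discriminant z‖ ^ w * (∑ i, ‖Ψ (z : ℂ) i‖ ^ 2) ^ 6
  have hGφ : ∀ z : ℍ, φ z = ‖G (z : ℂ)‖ ^ 12 := by
    intro z
    have h1 : ‖WithLp.toLp 2 (Ψ (z : ℂ))‖ ^ 2 = ∑ i, ‖Ψ (z : ℂ) i‖ ^ 2 := by
      rw [EuclideanSpace.norm_sq_eq]
    have h2 : ‖ModularForm.discriminant z‖ = ‖ModularForm.eta (z : ℂ)‖ ^ 24 := by
      simp [ModularForm.discriminant]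
    change ‖ModularForm.discriminant z‖ ^ w * (∑ i, ‖Ψ (z : ℂ) i‖ ^ 2) ^ 6 =
      ‖(ModularForm.eta (z : ℂ)) ^ (2 * w) • WithLp.toLp 2 (Ψ (z : ℂ))‖ ^ 12
    rw [h2, ← h1, norm_smul, norm_pow, mul_pow]
    ring
  have hopen : IsOpen {τ : ℂ | 0 < τ.im} := isOpen_lt continuous_const Complex.continuous_im
  have hGd : DifferentiableOn ℂ G {τ | 0 < τ.im} := by
    intro τ hτ
    have h1 : DifferentiableWithinAt ℂ ModularForm.eta {τ : ℂ | 0 < τ.im} τ :=
      (differentiableAt_eta_of_mem_upperHalfPlaneSet hτ).differentiableWithinAt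
    have h2 : DifferentiableWithinAt ℂ (fun t => WithLp.toLp 2 (Ψ t)) {τ : ℂ | 0 < τ.im} τ :=
      ((PiLp.continuousLinearEquiv 2 ℂ (fun _ : ι => ℂ)).symm.differentiableAt).comp_differentiableWithinAt
        τ (hΨ τ hτ)
    exact (h1.pow (2 * w)).smul h2
  have hφc : Continuous φ := by
    have h1 : ∀ z : ℍ, φ z = ‖G (z : ℂ)‖ ^ 12 := hGφ
    rw [show φ = fun z : ℍ => ‖G (z : ℂ)‖ ^ 12 from funext h1]
    refine ((continuous_iff_continuousAt.2 fun z => ?_).norm).pow 12
    have h2 : ContinuousAt G (z : ℂ) :=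
      (hGd (z : ℂ) z.2).continuousWithinAt.continuousAt (hopen.mem_nhds z.2)
    exact ContinuousAt.comp (f := fun z : ℍ => (z : ℂ)) h2 UpperHalfPlane.continuous_coe.continuousAt
  have hφS : ∀ z : ℍ, φ (ModularGroup.S • z) = φ z := by
    intro z
    have h1 := norm_disc_S z
    have h2 := hS (z : ℂ) z.2
    have h3 : ((ModularGroup.S • z : ℍ) : ℂ) = -1 / (z : ℂ) := by
      rw [modular_S_smul]
      simp [neg_div]
    change ‖ModularForm.discriminant (ModularGroup.S • z)‖ ^ w *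
      (∑ i, ‖Ψ ((ModularGroup.S • z : ℍ) : ℂ) i‖ ^ 2) ^ 6 = ‖ModularForm.discriminant z‖ ^ w *
      (∑ i, ‖Ψ (z : ℂ) i‖ ^ 2) ^ 6
    rw [h1, h3, ← h2]
    ring
  have hφT : ∀ z : ℍ, φ (ModularGroup.T • z) = φ z := by
    intro z
    have h1 := norm_disc_T z
    have h2 := hT (z : ℂ) z.2
    have h3 : ((ModularGroup.T • z : ℍ) : ℂ) = (z : ℂ) + 1 := by
      rw [modular_T_smul]
      simp [add_comm]
    change ‖ModularForm.discriminant (ModularGroup.T • z)‖ ^ w *
      (∑ i, ‖Ψ ((ModularGroup.T • z : ℍ) : ℂ) i‖ ^ 2) ^ 6 = ‖ModularForm.discriminant z‖ ^ w *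
      (∑ i, ‖Ψ (z : ℂ) i‖ ^ 2) ^ 6
    rw [h1, h3, ← h2]
  have hφ := inv_of_gen φ hφS hφT
  -- behaviour at infinity
  have hlim : Tendsto φ atImInfty (𝓝 0) := by
    have h1 : (ModularForm.discriminant : ℍ → ℂ) =O[atImInfty]
        fun τ => Real.exp (-2 * Real.pi * τ.im / 1) :=
      CuspFormClass.exp_decay_atImInfty (h := 1) CuspForm.discriminant one_pos
        one_mem_strictPeriods_SL
    obtain ⟨c, hc, h1⟩ := h1.exists_pos
    rw [Asymptotics.IsBigOWith] at h1
    have him : Tendsto (UpperHalfPlane.im) atImInfty atTop := tendsto_comap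
    have h2 : ∀ᶠ z : ℍ in atImInfty, φ z ≤ (c ^ w * (Fintype.card ι * C ^ 2) ^ 6) *
        Real.exp (-(24 * Real.pi * (w / 12 + κ)) * z.im) := by
      filter_upwards [h1, him.eventually (eventually_ge_atTop (1 / 2))] with z hz1 hz2
      have e1 : ‖ModularForm.discriminant z‖ ≤ c * Real.exp (-2 * Real.pi * z.im) := by
        rw [Real.norm_of_nonneg (Real.exp_pos _).le, div_one] at hz1
        exact hz1
      have e2 : ∑ i, ‖Ψ (z : ℂ) i‖ ^ 2 ≤
          Fintype.card ι * (C * Real.exp (-(2 * Real.pi * κ * z.im))) ^ 2 := by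
        have : ∀ i ∈ (Finset.univ : Finset ι), ‖Ψ (z : ℂ) i‖ ^ 2 ≤
            (C * Real.exp (-(2 * Real.pi * κ * z.im))) ^ 2 := by
          intro i _
          exact pow_le_pow_left₀ (norm_nonneg _) (hC (z : ℂ) hz2 i) 2
        calc ∑ i, ‖Ψ (z : ℂ) i‖ ^ 2 ≤ ∑ _i : ι, (C * Real.exp (-(2 * Real.pi * κ * z.im))) ^ 2 :=
              Finset.sum_le_sum this
          _ = _ := by rw [Finset.sum_const, nsmul_eq_mul, Finset.card_univ]
      have e3 : 0 ≤ ∑ i, ‖Ψ (z : ℂ) i‖ ^ 2 := Finset.sum_nonneg fun i _ => by positivity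
      calc φ z = ‖ModularForm.discriminant z‖ ^ w * (∑ i, ‖Ψ (z : ℂ) i‖ ^ 2) ^ 6 := rfl
        _ ≤ (c * Real.exp (-2 * Real.pi * z.im)) ^ w *
            (Fintype.card ι * (C * Real.exp (-(2 * Real.pi * κ * z.im))) ^ 2) ^ 6 := by
            gcongr
        _ = _ := by
            rw [mul_pow, mul_pow C, ← mul_assoc (Fintype.card ι : ℝ), mul_pow _ _ 6,
              ← Real.exp_nat_mul, ← Real.exp_nat_mul, ← Real.exp_nat_mul]
            rw [show (c ^ w * Real.exp (w * (-2 * Real.pi * z.im)) *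
              ((Fintype.card ι * C ^ 2) ^ 6 *
                Real.exp ((6 : ℕ) * ((2 : ℕ) * -(2 * Real.pi * κ * z.im))))) =
              (c ^ w * (Fintype.card ι * C ^ 2) ^ 6) * (Real.exp (w * (-2 * Real.pi * z.im)) *
                Real.exp ((6 : ℕ) * ((2 : ℕ) * -(2 * Real.pi * κ * z.im)))) by ring,
              ← Real.exp_add]
            congr 2
            push_cast
            ring
    refine squeeze_zero' (Eventually.of_forall fun z => ?_) h2 ?_
    · rw [hGφ]; positivity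
    · rw [show (0 : ℝ) = (c ^ w * (Fintype.card ι * C ^ 2) ^ 6) * 0 by ring]
      refine Tendsto.const_mul _ ?_
      have h3 : 0 < 24 * Real.pi * (w / 12 + κ) := by
        have : 0 < (w : ℝ) / 12 + κ := by linarith
        have := Real.pi_pos
        positivity
      refine Real.tendsto_exp_atBot.comp ?_
      exact him.const_mul_atTop_of_neg (neg_lt_zero.2 h3)
  by_contra hne
  push Not at hne
  obtain ⟨τ₀, hτ₀, i₀, hi₀⟩ := hne
  let z₀ : ℍ := ⟨τ₀, hτ₀⟩
  have hz₀ : 0 < φ z₀ := by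
    have h1 : 0 < ‖ModularForm.discriminant z₀‖ := norm_pos_iff.2 (discriminant_ne_zero z₀)
    have h2 : 0 < ∑ i, ‖Ψ (z₀ : ℂ) i‖ ^ 2 := by
      refine Finset.sum_pos' (fun i _ => by positivity) ⟨i₀, Finset.mem_univ _, ?_⟩
      exact pow_pos (norm_pos_iff.2 hi₀) 2
    positivity
  obtain ⟨T, hTb⟩ : ∃ T : ℝ, ∀ z : ℍ, T ≤ z.im → φ z < φ z₀ := by
    have := hlim.eventually (gt_mem_nhds hz₀)
    rw [atImInfty, eventually_comap, eventually_atTop] at this
    obtain ⟨T, hT'⟩ := this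
    exact ⟨T, fun z hz => hT' _ hz z rfl⟩
  obtain ⟨g₀, hg₀⟩ := exists_smul_mem_fd z₀
  have hmem : ∀ z : ℍ, z ∈ 𝒟 → φ z₀ ≤ φ z → z ∈ truncatedFundamentalDomain T := by
    intro z hz hle
    refine ⟨hz, ?_⟩
    by_contra hcon
    push Not at hcon
    exact absurd (hTb z hcon.le) (not_lt.2 hle)
  obtain ⟨z₁, hz₁, hmax⟩ := (isCompact_truncatedFundamentalDomain T).exists_isMaxOn
    ⟨g₀ • z₀, hmem _ hg₀ (hφ g₀ z₀).ge⟩ hφc.continuousOn
  have hglob : ∀ z : ℍ, φ z ≤ φ z₁ := by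
    intro z
    by_cases hcase : φ z₀ ≤ φ z
    · obtain ⟨g, hg⟩ := exists_smul_mem_fd z
      have := hmax (hmem _ hg (by rw [hφ g z]; exact hcase))
      simp only [Set.mem_ofPred_eq] at this
      rwa [hφ g z] at this
    · push Not at hcase
      have := hmax (hmem _ hg₀ (hφ g₀ z₀).ge)
      simp only [Set.mem_ofPred_eq] at this
      rw [hφ g₀ z₀] at this
      exact hcase.le.trans this
  have hz₁pos : 0 < φ z₁ := hz₀.trans_le (hglob z₀)
  have hpre : IsPreconnected {τ : ℂ | 0 < τ.im} :=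
    (convex_halfSpace_im_gt 0).isPreconnected
  have hconst := Complex.norm_eqOn_of_isPreconnected_of_isMaxOn hpre hopen hGd z₁.2
    (c := (z₁ : ℂ)) (by
      intro τ hτ
      have h1 := hglob ⟨τ, hτ⟩
      rw [hGφ, hGφ] at h1
      exact le_of_pow_le_pow_left₀ (by norm_num) (norm_nonneg _) h1)
  have hall : ∀ z : ℍ, φ z = φ z₁ := by
    intro z
    have h1 := hconst z.2
    simp only [Function.comp_apply, Function.const_apply] at h1
    rw [hGφ, hGφ, h1]
  have hlim2 : Tendsto φ atImInfty (𝓝 (φ z₁)) := by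
    rw [show φ = fun _ => φ z₁ from funext hall]
    exact tendsto_const_nhds
  exact hz₁pos.ne (tendsto_nhds_unique hlim hlim2)

end Pool.Agent.Q176.RL
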